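import Pool.Agent.Q41.GT.Stm2

/-!
# Project GT of helper41, jobs H5 and H6 (by helper149)
-/

set_option autoImplicit false

open Finset Polynomial

namespace Pool.Agent.Q149.GT

open Pool.Agent.Q41.GT Pool.Agent.Q41.SU Pool.Agent.W602.GT
open Pool.Agent.W277.UH (ConjConst)

section img

variable {K E : Type} [Field K] [Field E] (f : K →+* E)

/-- the image of a finite set -/
noncomputable def im (P : Finset K) : Finset E := P.map ⟨f, f.injective⟩

theorem mem_im {P : Finset K} {y : E} : y ∈ im f P ↔ ∃ x ∈ P, f x = y := by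
  simp [im]

theorem im_card (P : Finset K) : (im f P).card = P.card := Finset.card_map _

theorem stab_im {p q : K[X]} {P : Finset K} (h : Stab p q P) :
    Stab (p.map f) (q.map f) (im f P) := by
  intro z hz
  obtain ⟨x, hx, rfl⟩ := (mem_im f).1 hz
  obtain ⟨h1, h2⟩ := h x hx
  rw [eval_map_apply, eval_map_apply]
  exact ⟨fun h0 => h1 ((map_eq_zero f).1 h0), (mem_im f).2 ⟨_, h2, map_div₀ f _ _⟩⟩

theorem sur_im {p q : K[X]} {P : Finset K} (h : Sur p q P) :
    Sur (p.map f) (q.map f) (im f P) := by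
  unfold Sur at h ⊢
  have e : {y : E | y ∈ im f P ∧ ∀ z ∈ im f P, (p.map f).eval z / (q.map f).eval z ≠ y} ⊆
      f '' {y : K | y ∈ P ∧ ∀ z ∈ P, p.eval z / q.eval z ≠ y} := by
    rintro y ⟨hy, hy2⟩
    obtain ⟨x, hx, rfl⟩ := (mem_im f).1 hy
    refine ⟨x, ⟨hx, fun z hz hzx => ?_⟩, rfl⟩
    apply hy2 (f z) ((mem_im f).2 ⟨z, hz, rfl⟩)
    rw [eval_map_apply, eval_map_apply, ← map_div₀, hzx]
  have hfin : {y : K | y ∈ P ∧ ∀ z ∈ P, p.eval z / q.eval z ≠ y}.Finite :=
    P.finite_toSet.subset fun y hy => hy.1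
  refine (Set.ncard_le_ncard e (hfin.image f)).trans ?_
  rw [Set.ncard_image_of_injective _ f.injective]
  exact h

theorem crs_im {P : Finset K} {c : K} (hc : c ∈ crs P) : f c ∈ crs (im f P) := by
  obtain ⟨x0, h0, x1, h1, x2, h2, x, hx, n1, n2, n3, n4, n5, rfl⟩ := hc
  refine ⟨f x0, (mem_im f).2 ⟨_, h0, rfl⟩, f x1, (mem_im f).2 ⟨_, h1, rfl⟩, f x2,
    (mem_im f).2 ⟨_, h2, rfl⟩, f x, (mem_im f).2 ⟨_, hx, rfl⟩, f.injective.ne n1,
    f.injective.ne n2, f.injective.ne n3, f.injective.ne n4, f.injective.ne n5, ?_⟩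
  simp

theorem crs_of_im {P : Finset K} {c : E} (hc : c ∈ crs (im f P)) : ∃ c' ∈ crs P, f c' = c := by
  obtain ⟨y0, h0, y1, h1, y2, h2, y, hy, n1, n2, n3, n4, n5, rfl⟩ := hc
  obtain ⟨x0, g0, rfl⟩ := (mem_im f).1 h0
  obtain ⟨x1, g1, rfl⟩ := (mem_im f).1 h1
  obtain ⟨x2, g2, rfl⟩ := (mem_im f).1 h2
  obtain ⟨x, gx, rfl⟩ := (mem_im f).1 hy
  refine ⟨_, ⟨x0, g0, x1, g1, x2, g2, x, gx, fun h => n1 (by rw [h]), fun h => n2 (by rw [h]),
    fun h => n3 (by rw [h]), fun h => n4 (by rw [h]), fun h => n5 (by rw [h]), rfl⟩, ?_⟩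
  simp

end img

/-- cross ratios over an algebraically closed field of constants -/
theorem crs_const (hcrc : Pool.Agent.Q41.SU.S_crc.{0}) {k E : Type} [Field k] [IsAlgClosed k]
    [Field E] [Algebra k E] {d : ℕ} {p q : E[X]} (hd : 2 ≤ d) (hp : p.natDegree ≤ d)
    (hq : q.natDegree = d) (hco : IsCoprime p q) (hc : ConjConst k p q d) {P : Finset E}
    (hP : Stab p q P) {c : E} (h : c ∈ crs P) : ∃ s : k, algebraMap k E s = c := by
  obtain ⟨x0, h0, x1, h1, x2, h2, x, hx, n1, n2, n3, n4, n5, rfl⟩ := h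
  exact hcrc k E d p q hd hp hq.le (by rw [hq]; exact max_eq_right hp) hco hc P hP x0 h0 x1 h1
    x2 h2 x hx n1 n2 n3 n4 n5

/-- **(H5)** -/
theorem t_crs : Pool.Agent.Q41.SU.S_crc.{0} → S_crs := by
  classical
  intro hcrc k K _ _ _ _ d p q hd hp hq hco P P' hPP' hP hP' hcard halg
  let F := IntermediateField.adjoin k (crs P')
  let E := AlgebraicClosure K
  let k₁ := algebraicClosure F E
  have hk₁ : IsAlgClosed k₁ := IsAlgClosure.isAlgClosed F
  let f : K →+* E := algebraMap K E
  have hcs : ∀ c ∈ crs (im f P'), ∃ s : k₁, algebraMap k₁ E s = c := by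
    intro c hc
    obtain ⟨c', hc', rfl⟩ := crs_of_im f hc
    have h1 : c' ∈ F := IntermediateField.subset_adjoin k _ hc'
    have h2 : f c' = algebraMap F E ⟨c', h1⟩ := rfl
    refine ⟨algebraMap F k₁ ⟨c', h1⟩, ?_⟩
    rw [h2]
    exact (IsScalarTower.algebraMap_apply F k₁ E _).symm
  have hpE : (p.map f).natDegree ≤ d := by rw [natDegree_map]; exact hp
  have hqE : (q.map f).natDegree = d := by rw [natDegree_map]; exact hq
  have hcoE : IsCoprime (p.map f) (q.map f) := hco.map (mapRingHom f)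
  have hconj : ConjConst k₁ (p.map f) (q.map f) d := by
    apply Pool.Agent.W277.UH.conj_of_cross (p.map f) (q.map f) d hpE hqE hd hcoE (im f P')
      (stab_im f hP') (im f P') (Finset.Subset.refl _)
    · intro x0 h0 x1 h1 x2 h2 x hx n1 n2 n3 n4 n5
      exact hcs _ ⟨x0, h0, x1, h1, x2, h2, x, hx, n1, n2, n3, n4, n5, rfl⟩
    · rw [Finset.sdiff_self, Finset.card_empty, mul_zero, zero_add, im_card]
      exact hcard
  have hA : crs P ⊆ ((algebraicClosure F K).restrictScalars k : Set K) := by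
    intro c hc
    obtain ⟨s, hs⟩ := crs_const hcrc hd hpE hqE hcoE hconj (stab_im f hP) (crs_im f hc)
    have h1 : IsAlgebraic F (f c) := by
      rw [← hs]
      exact mem_algebraicClosure_iff.1 s.2
    have h2 : IsAlgebraic F c := (isAlgebraic_algebraMap_iff (algebraMap K E).injective).1 h1
    exact mem_algebraicClosure_iff.2 h2
  have hle : IntermediateField.adjoin k (crs P) ≤ (algebraicClosure F K).restrictScalars k :=
    IntermediateField.adjoin_le_iff.2 hA
  let _ : Algebra (IntermediateField.adjoin k (crs P)) ((algebraicClosure F K).restrictScalars k) :=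
    (IntermediateField.inclusion hle).toRingHom.toAlgebra
  have hst : IsScalarTower (IntermediateField.adjoin k (crs P))
      ((algebraicClosure F K).restrictScalars k) K := IsScalarTower.of_algebraMap_eq fun x => rfl
  have h3 : Algebra.IsAlgebraic ((algebraicClosure F K).restrictScalars k) K :=
    Algebra.IsAlgebraic.extendScalars (R := IntermediateField.adjoin k (crs P))
      (IntermediateField.inclusion hle).toRingHom.injective
  have h4 : Algebra.IsAlgebraic (algebraicClosure F K) K := h3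
  exact Algebra.IsAlgebraic.trans F (algebraicClosure F K) K

end Pool.Agent.Q149.GT
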