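import Pool.Agent.Q41.GT.Stm1
import Pool.Agent.Q128.SU.NumCore

/-!
# Project GT of helper41, job G10 (by helper149)
-/

set_option autoImplicit false

open Finset

namespace Pool.Agent.Q149.GT

open Pool.Agent.Q41.GT Pool.Agent.Q41.SU Pool.Agent.Q128.SU

/-- **(G10)** -/
theorem t_nmc : S_num → S_phi → S_lsq → S_nmc := by
  classical
  intro hnum hphi hlsq d N₁ c' η hd hc hc1 hη
  obtain ⟨J, hJ2, hJη, hJc⟩ : ∃ J : ℕ, 2 ≤ J ∧ 200 ≤ J * η ∧ 2 ≤ c' * J := by
    obtain ⟨m, hm⟩ := exists_nat_ge (max (200 / η) (2 / c'))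
    refine ⟨max 2 m, le_max_left _ _, ?_, ?_⟩
    · have h1 : (m : ℝ) ≤ ((max 2 m : ℕ) : ℝ) := by exact_mod_cast le_max_right _ _
      have h2 := (le_max_left _ _).trans (hm.trans h1)
      rwa [div_le_iff₀ hη] at h2
    · have h1 : (m : ℝ) ≤ ((max 2 m : ℕ) : ℝ) := by exact_mod_cast le_max_right _ _
      have h2 := (le_max_right _ _).trans (hm.trans h1)
      rw [div_le_iff₀ hc] at h2
      linarith
  obtain ⟨n, hn⟩ : ∃ n : ℕ, 6400 * (J : ℝ) ≤ (d : ℝ) ^ n * η := by
    obtain ⟨n, hn⟩ := pow_unbounded_of_one_lt (6400 * (J : ℝ) / η)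
      (show (1 : ℝ) < (d : ℝ) by exact_mod_cast (by omega : 1 < d))
    refine ⟨n, ?_⟩
    rw [div_lt_iff₀ hη] at hn
    exact hn.le
  obtain ⟨b, hb100, hbN, hbd, hbη⟩ : ∃ b : ℕ, 100 * J * 1 ^ 2 ≤ b ∧ N₁ ≤ b ∧ d ^ (2 * n) ≤ b ∧
      1000 ≤ b * η := by
    obtain ⟨m, hm⟩ := exists_nat_ge (1000 / η)
    refine ⟨100 * J * 1 ^ 2 + N₁ + d ^ (2 * n) + m, by omega, by omega, by omega, ?_⟩
    rw [div_le_iff₀ hη] at hm
    have h1 : (m : ℝ) ≤ ((100 * J * 1 ^ 2 + N₁ + d ^ (2 * n) + m : ℕ) : ℝ) := by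
      exact_mod_cast Nat.le_add_left _ _
    nlinarith
  have hbNN : b ≤ (J * b + 1) * (b + 1) := by
    have h1 : 1 * (b + 1) ≤ (J * b + 1) * (b + 1) := Nat.mul_le_mul_right _ (by omega)
    omega
  have hb2 : 2 ≤ b := by omega
  refine ⟨J, b, n, hJ2, by omega, hbN.trans hbNN, hbd.trans hbNN, ?_⟩
  intro M o ho
  set N : ℝ := (((J * b + 1) * (b + 1) : ℕ) : ℝ) with hNdef
  set O : ℝ := ∑ l, ∑ j ∈ univ.erase l, (o l j : ℝ) with hO
  have hO0 : 0 ≤ O := Finset.sum_nonneg fun l _ => Finset.sum_nonneg fun j hj => by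
    exact_mod_cast (ho l j (Finset.ne_of_mem_erase hj).symm).1
  have hJ' : (2 : ℝ) ≤ J := by exact_mod_cast hJ2
  have hb' : (2 : ℝ) ≤ b := by exact_mod_cast hb2
  have hd0 : (0 : ℝ) < (d : ℝ) ^ n := by
    have : (0 : ℝ) < d := by exact_mod_cast (by omega : 0 < d)
    positivity
  have hN1 : (J : ℝ) * (b : ℝ) ^ 2 ≤ N := by
    rw [hNdef]
    push_cast
    nlinarith
  have hN2 : N ≤ 4 * (J : ℝ) * (b : ℝ) ^ 2 := by
    rw [hNdef]
    push_cast
    nlinarith [mul_nonneg (by linarith : (0:ℝ) ≤ (J:ℝ) - 2) (by linarith : (0:ℝ) ≤ (b:ℝ) - 2)]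
  have hN0 : 0 < N := lt_of_lt_of_le (by positivity) hN1
  have hN3 : 1 ≤ N := by nlinarith [mul_pos (show (0 : ℝ) < J by linarith) (show (0 : ℝ) < b by linarith)]
  have hls : LS (fun n => (n : ℝ) * (n - 1)) M o = O := hlsq _ M o ho
  have hkap : LS (kap (J * b) b) M o ≤ 1 / b * O := by
    rw [← hls, ← LS_smul]
    refine LS_mono fun i _ l => ?_
    have h1 := kap_le_div J b (cnt o i l) (by omega) (by omega)
    refine h1.trans (le_of_eq ?_)
    ring
  refine ⟨?_, ?_⟩
  · have h1 : 2 / (b : ℝ) * O = 1 / b * O + 1 / b * O := by ring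
    have h2 : 0 ≤ 1 / (b : ℝ) * O := by positivity
    linarith
  · intro R c En hR hcb hcnt hlow hen
    have hR' : (1 : ℝ) ≤ R := by exact_mod_cast hR
    -- the lower bound of the sum of `gam`
    have hgam : (J : ℝ) * (b / (48 * N)) * O + J * 1 * LS (kap (J * b) b) M o ≤
        LS (gam (J * b) b J) M o := by
      rw [← hls, ← LS_smul, ← LS_smul, ← LS_add]
      refine LS_mono fun i hi l => ?_
      have hi1 : 1 ≤ i := (Finset.mem_Icc.1 hi).1
      have h1 := gam_ge hnum hphi J 1 b (cnt o i l) (by omega) le_rfl hb100 (one_le_cnt o i l)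
        ((Nat.mul_le_mul_left 2 (cnt_mono o hi1 l)).trans (hcnt l))
      rw [← hNdef, Nat.cast_one] at h1
      exact h1
    have hc' : (c : ℝ) ≤ b * N := by
      rw [hNdef]
      exact_mod_cast hcb
    have h1 : (b / (48 * N)) * O + LS (kap (J * b) b) M o - b * N / J ≤
        (LS (gam (J * b) b J) M o - c) / J := by
      rw [le_div_iff₀ (by linarith)]
      have e1 : ((b / (48 * N)) * O + LS (kap (J * b) b) M o - b * N / J) * J =
          (J : ℝ) * (b / (48 * N)) * O + J * 1 * LS (kap (J * b) b) M o - b * N := by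
        field_simp
      rw [e1]
      linarith
    have hbN0 : 0 < b * N := by positivity
    suffices hsuff : (R : ℝ) ≤ 2 / b * En + (b / (48 * N)) * O - b * N / J by linarith
    rcases le_or_gt En (c' * N ^ 2 * R) with hcase | hcase
    · have h2 := hen hcase
      have h3 : b * N * η * R / 48 ≤ (b / (48 * N)) * O := by
        have h4 : (b / (48 * N)) * (η * N ^ 2 * R) ≤ (b / (48 * N)) * O :=
          mul_le_mul_of_nonneg_left h2 (by positivity)
        refine le_trans (le_of_eq ?_) h4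
        field_simp
      have h5 : b * N / J ≤ b * N * η * R / 200 := by
        rw [div_le_div_iff₀ (by linarith) (by norm_num)]
        have h6 : 200 * (b * N) ≤ J * η * (b * N) := mul_le_mul_of_nonneg_right hJη hbN0.le
        have h7 : J * η * (b * N) ≤ J * η * (b * N) * R := le_mul_of_one_le_right (by positivity) hR'
        linarith
      have h8 : -(b * N * η * R / 200) ≤ 2 / b * En := by
        have h9 : 2 / (b : ℝ) * (-(4 * N ^ 2 * R / (d : ℝ) ^ n)) ≤ 2 / b * En :=
          mul_le_mul_of_nonneg_left hlow (by positivity)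
        refine le_trans ?_ h9
        have e2 : 2 / (b : ℝ) * (-(4 * N ^ 2 * R / (d : ℝ) ^ n)) =
            -((8 * N * R * N) / (b * (d : ℝ) ^ n)) := by
          field_simp
          ring
        rw [e2, neg_le_neg_iff, div_le_div_iff₀ (by positivity) (by norm_num)]
        have h10 : 8 * N * R * N ≤ 8 * N * R * (4 * (J : ℝ) * (b : ℝ) ^ 2) :=
          mul_le_mul_of_nonneg_left hN2 (by positivity)
        have h11 : (6400 * (J : ℝ)) * (b ^ 2 * N * R) ≤ ((d : ℝ) ^ n * η) * (b ^ 2 * N * R) :=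
          mul_le_mul_of_nonneg_right hn (by positivity)
        nlinarith
      have h12 : R ≤ b * N * η * R / 100 := by
        have h13 : 1000 * (N * R) ≤ b * η * (N * R) := mul_le_mul_of_nonneg_right hbη (by positivity)
        have h14 : (R : ℝ) ≤ N * R := le_mul_of_one_le_left (by linarith) hN3
        linarith
      linarith
    · have h2 : 4 * (b * N * R) ≤ 2 / b * En := by
        have h3 : 2 / (b : ℝ) * (c' * N ^ 2 * R) ≤ 2 / b * En :=
          mul_le_mul_of_nonneg_left hcase.le (by positivity)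
        refine le_trans ?_ h3
        have e3 : 2 / (b : ℝ) * (c' * N ^ 2 * R) = (2 * c' * N * R) * N / b := by
          field_simp
        rw [e3, le_div_iff₀ (by linarith)]
        have h4 : (2 * c' * N * R) * (J * (b : ℝ) ^ 2) ≤ (2 * c' * N * R) * N :=
          mul_le_mul_of_nonneg_left hN1 (by positivity)
        have h5 : 2 * (2 * N * R * b ^ 2) ≤ c' * J * (2 * N * R * b ^ 2) :=
          mul_le_mul_of_nonneg_right hJc (by positivity)
        nlinarith
      have h6 : b * N / J ≤ b * N * R := by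
        rw [div_le_iff₀ (by linarith)]
        have h7 : b * N ≤ b * N * R := le_mul_of_one_le_right hbN0.le hR'
        have h8 : b * N * R ≤ b * N * R * J := le_mul_of_one_le_right (by positivity) (by linarith)
        linarith
      have h9 : (R : ℝ) ≤ b * N * R := by
        apply le_mul_of_one_le_left (by linarith)
        nlinarith
      have h10 : 0 ≤ (b / (48 * N)) * O := by positivity
      linarith

end Pool.Agent.Q149.GT
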