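import Pool.Agent.Q149.GT.H5

/-!
# Project GT of helper41, job H6 (by helper149)
-/

set_option autoImplicit false

open Finset Polynomial

namespace Pool.Agent.Q149.GT

open Pool.Agent.Q41.GT Pool.Agent.Q41.SU Pool.Agent.W602.GT
open Pool.Agent.W277.UH (ConjConst)

section alg

variable {k E : Type} [Field k] [CharZero k] [Field E] [Algebra k E]

/-- a derivation vanishes on the elements which are algebraic over its constants -/
theorem der_zero_of_alg (D : Derivation k E E) {x : E} (hx : IsAlgebraic (consts D) x) :
    D x = 0 := by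
  have hint : IsIntegral (consts D) x := hx.isIntegral
  have hchar : CharZero (consts D) := charZero_of_injective_algebraMap
    (algebraMap k (consts D)).injective
  have h1 : overConsts D (Polynomial.aeval x (minpoly (consts D) x)) = 0 := by
    rw [minpoly.aeval, map_zero]
  rw [Derivation.map_aeval] at h1
  have h2 : Polynomial.aeval x (Polynomial.derivative (minpoly (consts D) x)) ≠ 0 :=
    (minpoly.irreducible hint).separable.aeval_derivative_ne_zero (minpoly.aeval _ _)
  rw [smul_eq_mul, overConsts_apply] at h1
  exact (mul_eq_zero.mp h1).resolve_left h2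

theorem isAlgClosed_consts [IsAlgClosed E] (D : Derivation k E E) : IsAlgClosed (consts D) := by
  refine IsAlgClosed.of_exists_root _ fun p hmon hirr => ?_
  obtain ⟨x, hx⟩ := IsAlgClosed.exists_aeval_eq_zero E p (degree_pos_of_irreducible hirr).ne'
  have h1 : D x = 0 := der_zero_of_alg D ⟨p, hirr.ne_zero, hx⟩
  refine ⟨⟨x, h1⟩, ?_⟩
  have h2 : algebraMap (consts D) E (p.eval ⟨x, h1⟩) = 0 := by
    rw [← hx, ← aeval_algebraMap_apply_eq_algebraMap_eval]
    rfl
  exact (map_eq_zero _).1 h2

end alg

/-- **(H6)** -/
theorem t_ndw : S_ndr → Pool.Agent.Q41.SU.S_crc.{0} → S_ndw := by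
  classical
  intro hndr hcrc d a b φ hd hφ
  obtain ⟨N₀, hN₀⟩ := hndr d a b φ hφ
  refine ⟨N₀, ?_⟩
  intro k K E _ _ _ _ _ _ _ _ _ p q hp hq hco P hP hS hcard halg D hD
  have hEc : IsAlgClosed E := IsAlgClosure.isAlgClosed K
  have hC := isAlgClosed_consts D
  have hchar : CharZero (consts D) := charZero_of_injective_algebraMap
    (algebraMap k (consts D)).injective
  let f : K →+* E := algebraMap K E
  have hpE : (p.map f).natDegree ≤ d := by rw [natDegree_map]; exact hp
  have hqE : (q.map f).natDegree = d := by rw [natDegree_map]; exact hq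
  have hcoE : IsCoprime (p.map f) (q.map f) := hco.map (mapRingHom f)
  have hnd : NDH (consts D) (overConsts D) d (p.map f) (q.map f) (im f P) := by
    refine ⟨fun x hx => ⟨⟨x, hx⟩, rfl⟩, hd, hpE, hqE, hcoE, stab_im f hP, sur_im f hS, ?_⟩
    intro hconj
    obtain ⟨x, hx⟩ := hD
    apply hx
    -- the constants of `K`
    let A : IntermediateField k K := (consts D).comap (IsScalarTower.toAlgHom k K E)
    have hA : crs P ⊆ (A : Set K) := by
      intro c hc
      obtain ⟨s, hs⟩ := crs_const hcrc hd hpE hqE hcoE hconj (stab_im f hP) (crs_im f hc)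
      change f c ∈ consts D
      rw [← hs]
      exact s.2
    have hle : IntermediateField.adjoin k (crs P) ≤ A := IntermediateField.adjoin_le_iff.2 hA
    let g : IntermediateField.adjoin k (crs P) →+* consts D :=
      { toFun := fun y => ⟨f y, hle y.2⟩
        map_one' := Subtype.ext (map_one f)
        map_mul' := fun y z => Subtype.ext (map_mul f _ _)
        map_zero' := Subtype.ext (map_zero f)
        map_add' := fun y z => Subtype.ext (map_add f _ _) }
    apply der_zero_of_alg D
    obtain ⟨r, hr0, hr⟩ := halg.isAlgebraic x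
    refine ⟨r.map g, (Polynomial.map_ne_zero_iff g.injective).2 hr0, ?_⟩
    have h1 : f (aeval x r) = aeval (f x) (r.map g) := by
      rw [aeval_def, aeval_def, eval₂_map, hom_eval₂]
      rfl
    rw [← h1, hr, map_zero]
  obtain ⟨x, hx1, hx2, hx3⟩ := hN₀ (consts D) E (overConsts D) (p.map f) (q.map f) (im f P) hnd
    (by rw [im_card]; exact hcard)
  have h1 : ∀ l, ∃ z ∈ P, f z = x l := fun l => (mem_im f).1 (hx2 l)
  choose z hz1 hz2 using h1
  refine ⟨z, fun l l' hll' => hx1 ?_, hz1, ?_⟩
  · rw [← hz2 l, ← hz2 l', hll']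
  · have e1 : (fun l => algebraMap K E (z l)) = x := funext hz2
    have e2 : (fun l => D (algebraMap K E (z l))) = fun l => overConsts D (x l) := by
      funext l
      rw [overConsts_apply, ← hz2 l]
    rw [e1, e2]
    exact hx3

end Pool.Agent.Q149.GT
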